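import Pool.Agent.H917R2.BP.Stm

/-! Task cutC of project BP: properly infinite central pieces pass to the corner. -/

set_option autoImplicit false

open scoped ComplexOrder InnerProductSpace ComplexConjugate Topology
open Filter

namespace Pool.Agent.H339R2.BPx

open H917R2.BP H710R2.DP H759R2.Kad

theorem t_cutC : H917R2.BP.S_cutC := by
  intro H K _ _ _ _ _ _ M z N io hc hz hPC n
  obtain ⟨w, hw, ho⟩ := hPC n
  have hiso : ∀ k : K, ContinuousLinearMap.adjoint io (io k) = k := by
    intro k
    have := congrArg (fun T : K →L[ℂ] K => T k) hc.isom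
    simpa using this
  have hrng : ∀ h : H, io (ContinuousLinearMap.adjoint io h) = z h := by
    intro h
    rw [← hc.rng]
    simp
  have hzio : ∀ k : K, z (io k) = io k := by
    intro k
    rw [← hrng, hiso]
  have hadj : ∀ h : H, ContinuousLinearMap.adjoint io (z h) = ContinuousLinearMap.adjoint io h := by
    intro h
    rw [← hrng, hiso]
  have hzM : z ∈ M := hz.2.1
  have hzw : ∀ i (h : H), z (w i h) = w i h := by
    intro i h
    have := congrArg (fun T : H →L[ℂ] H => T h) (hw i).2
    simpa using this
  refine ⟨fun i => ContinuousLinearMap.adjoint io ∘L w i ∘L io, ?_, ?_⟩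
  · intro i
    refine ⟨?_, one_mul _⟩
    rw [hc.mem]
    have : io ∘L (ContinuousLinearMap.adjoint io ∘L w i ∘L io) ∘L ContinuousLinearMap.adjoint io
        = w i * z := by
      ext h
      simp [hrng, hzw]
    rw [this]
    exact mul_mem (hw i).1 hzM
  · intro i j
    have h1 : star (w i) * w j = if i = j then z else 0 := ho i j
    have h2 : star (ContinuousLinearMap.adjoint io ∘L w i ∘L io)
        = ContinuousLinearMap.adjoint io ∘L star (w i) ∘L io := by
      rw [ContinuousLinearMap.star_eq_adjoint, ContinuousLinearMap.star_eq_adjoint,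
        ContinuousLinearMap.adjoint_comp, ContinuousLinearMap.adjoint_comp,
        ContinuousLinearMap.adjoint_adjoint]
      rfl
    rw [h2]
    ext k
    have h3 := congrArg (fun T : H →L[ℂ] H => ContinuousLinearMap.adjoint io (T (io k))) h1
    simp only [ContinuousLinearMap.mul_apply] at h3
    simp only [ContinuousLinearMap.mul_apply, ContinuousLinearMap.comp_apply, hrng, hzw]
    rw [h3]
    split_ifs
    · simp [hzio, hiso]
    · simp

end Pool.Agent.H339R2.BPx
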