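import Pool.Agent.H917R2.BP.Stm

/-! Task cutF of project BP: the corner of a support projection has a finite separating family. -/

set_option autoImplicit false

open scoped ComplexOrder InnerProductSpace ComplexConjugate Topology
open Filter

namespace Pool.Agent.H339R2.BPx

open H917R2.BP

theorem t_cutF : H917R2.BP.S_cutF := by
  intro H K _ _ _ _ _ _ M e N io hc F hF hs
  refine ⟨F.card, fun i => ContinuousLinearMap.adjoint io ((F.equivFin.symm i : H)), ?_⟩
  intro y hy h0
  have hxM := (hc.mem y).1 hy
  have hx0 : ∀ ξ ∈ F, (io ∘L y ∘L ContinuousLinearMap.adjoint io) ξ = 0 := by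
    intro ξ hξ
    have := h0 (F.equivFin ⟨ξ, hξ⟩)
    simp only [Equiv.symm_apply_apply] at this
    simp [this]
  have hxe := hs _ hxM hx0
  have hiso : ∀ k : K, ContinuousLinearMap.adjoint io (io k) = k := by
    intro k
    have := congrArg (fun T : K →L[ℂ] K => T k) hc.isom
    simpa using this
  ext k
  have h1 := congrArg (fun T : H →L[ℂ] H => ContinuousLinearMap.adjoint io (T (io k))) hxe
  have he : e (io k) = io k := by
    rw [← hc.rng]
    simp [hiso]
  simpa [ContinuousLinearMap.mul_apply, he, hiso] using h1

end Pool.Agent.H339R2.BPx
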