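import Pool.Agent.H917R2.BP.Stm

/-! Task e1a of project BP: the abstract dyadic estimate. -/

set_option autoImplicit false

open scoped Topology
open Filter

namespace Pool.Agent.H339R2.BPx

theorem geo_half (n : ℕ) : ∑ m ∈ Finset.range n, (1 / 2 : ℝ) ^ m ≤ 2 := by
  have : ∑ m ∈ Finset.range n, (1 / 2 : ℝ) ^ m = 2 - 2 * (1 / 2 : ℝ) ^ n := by
    induction n with
    | zero => simp
    | succ n ih => rw [Finset.sum_range_succ, ih, pow_succ]; ring
  rw [this]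
  have : (0 : ℝ) ≤ (1 / 2 : ℝ) ^ n := by positivity
  linarith

theorem geo_two (n : ℕ) : ∑ m ∈ Finset.range n, (1 / 2 : ℝ) ^ n * 2 ^ m ≤ 1 := by
  have : ∑ m ∈ Finset.range n, (2 : ℝ) ^ m = 2 ^ n - 1 := by
    induction n with
    | zero => simp
    | succ n ih => rw [Finset.sum_range_succ, ih, pow_succ]; ring
  rw [← Finset.mul_sum, this, mul_sub, ← mul_pow]
  have : (0 : ℝ) ≤ (1 / 2 : ℝ) ^ n := by positivity
  norm_num

theorem geo_both (c : ℕ → ℝ) (n K : ℕ) (hn : n < K) (h1 : ∀ m, c m ≤ (1 / 2 : ℝ) ^ n * 2 ^ m)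
    (h2 : ∀ m, c m ≤ 2 ^ n * (1 / 2 : ℝ) ^ m) : ∑ m ∈ Finset.range K, c m ≤ 3 := by
  obtain ⟨k, rfl⟩ := Nat.exists_eq_add_of_le hn.le
  rw [Finset.sum_range_add]
  have e1 : ∑ m ∈ Finset.range n, c m ≤ 1 :=
    (Finset.sum_le_sum fun m _ => h1 m).trans (geo_two n)
  have e2 : ∑ m ∈ Finset.range k, c (n + m) ≤ 2 := by
    refine (Finset.sum_le_sum fun m _ => ?_).trans (geo_half k)
    refine (h2 (n + m)).trans ?_
    rw [pow_add, ← mul_assoc, ← mul_pow]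
    norm_num
  linarith

theorem t_e1a : H917R2.BP.S_e1a := by
  intro E _ _ g α β w J a A B hA hB gadd1 gadd2 gab gba α0 β0 αs βs αw βw hα hβ
  have hP : (0 : ℝ) < 2 ^ J := by positivity
  have hz1 : ∀ n : ℕ, (2 : ℝ) ^ (-((n : ℤ) - J)) = 2 ^ J * (1 / 2) ^ n := by
    intro n
    rw [neg_sub, zpow_sub₀ two_ne_zero, zpow_natCast, zpow_natCast, one_div, inv_pow]
    rfl
  have hz2 : ∀ n : ℕ, (2 : ℝ) ^ ((n : ℤ) - J) = (1 / 2) ^ J * 2 ^ n := by
    intro n
    rw [zpow_sub₀ two_ne_zero, zpow_natCast, zpow_natCast, one_div, inv_pow, mul_comm]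
    rfl
  have hPi : (2 : ℝ) ^ J * (1 / 2) ^ J = 1 := by rw [← mul_pow]; norm_num
  set b : ℕ → E := fun n => a ((n : ℤ) - J) with hb
  have hbα : ∀ n, α (b n) ≤ A * (2 ^ J * (1 / 2) ^ n) := fun n => by
    rw [← hz1]; exact hα _
  have hbβ : ∀ n, β (w - b n) ≤ A * ((1 / 2) ^ J * 2 ^ n) := fun n => by
    rw [← hz2]; exact hβ _
  set D : ℕ → E := fun n => b n - b (n + 1) with hD
  have hDα : ∀ n, α (D n) ≤ 3 / 2 * A * (2 ^ J * (1 / 2) ^ n) := fun n => by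
    have h1 := αs (b n) (b (n + 1))
    have h2 := hbα n
    have h3 := hbα (n + 1)
    have h4 : A * (2 ^ J * (1 / 2 : ℝ) ^ (n + 1)) = 1 / 2 * (A * (2 ^ J * (1 / 2) ^ n)) := by
      rw [pow_succ]; ring
    rw [h4] at h3
    calc _ ≤ _ := h1
      _ ≤ A * (2 ^ J * (1 / 2) ^ n) + 1 / 2 * (A * (2 ^ J * (1 / 2) ^ n)) := add_le_add h2 h3
      _ = _ := by ring
  have hDβ : ∀ n, β (D n) ≤ 3 * A * ((1 / 2) ^ J * 2 ^ n) := fun n => by
    have h0 : D n = (w - b (n + 1)) - (w - b n) := by simp [hD]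
    have h1 := βs (w - b (n + 1)) (w - b n)
    rw [← h0] at h1
    have h2 := hbβ n
    have h3 := hbβ (n + 1)
    have h4 : A * ((1 / 2 : ℝ) ^ J * 2 ^ (n + 1)) = 2 * (A * ((1 / 2) ^ J * 2 ^ n)) := by
      rw [pow_succ]; ring
    rw [h4] at h3
    calc _ ≤ _ := h1
      _ ≤ 2 * (A * ((1 / 2) ^ J * 2 ^ n)) + A * ((1 / 2) ^ J * 2 ^ n) := add_le_add h3 h2
      _ = _ := by ring
  set K := 2 * J with hK
  have hsum : w = (w - b 0) + ∑ n ∈ Finset.range K, D n + b K := by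
    have : ∑ n ∈ Finset.range K, D n = b 0 - b K := Finset.sum_range_sub' b K
    rw [this]; abel
  have gl : ∀ (s : Finset ℕ) (f : ℕ → E) (z : E), g (∑ n ∈ s, f n) z = ∑ n ∈ s, g (f n) z := by
    intro s f z
    exact map_sum (AddMonoidHom.mk' (fun x => g x z) (fun x y => gadd1 x y z)) f s
  have gr : ∀ (s : Finset ℕ) (f : ℕ → E) (z : E), g z (∑ n ∈ s, f n) = ∑ n ∈ s, g z (f n) := by
    intro s f z
    exact map_sum (AddMonoidHom.mk' (fun x => g z x) (fun x y => gadd2 z x y)) f s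
  have hA2 : 0 ≤ A ^ 2 := sq_nonneg A
  -- powers at the ends
  have hb0 : β (w - b 0) ≤ A * (1 / 2) ^ J := by simpa using hbβ 0
  have hbK : α (b K) ≤ A * (1 / 2) ^ J := by
    refine (hbα K).trans (le_of_eq ?_)
    rw [hK, two_mul, pow_add, ← mul_assoc ((2 : ℝ) ^ J), hPi, one_mul]
  -- one row
  have row : ∀ n, n < K → ‖g (D n) w‖ ≤
      3 / 2 * A ^ 2 * (1 / 2) ^ n + 27 / 2 * A ^ 2 + 3 * A ^ 2 * ((1 / 2) ^ K * 2 ^ n) := by
    intro n hn
    have e0 : g (D n) w = g (D n) (w - b 0) + ∑ m ∈ Finset.range K, g (D n) (D m)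
        + g (D n) (b K) := by
      conv_lhs => rw [hsum]
      rw [gadd2, gadd2, gr]
    rw [e0]
    refine (norm_add_le _ _).trans (add_le_add ((norm_add_le _ _).trans (add_le_add ?_ ?_)) ?_)
    · calc _ ≤ α (D n) * β (w - b 0) := gab _ _
        _ ≤ (3 / 2 * A * (2 ^ J * (1 / 2) ^ n)) * (A * (1 / 2) ^ J) :=
          mul_le_mul (hDα n) hb0 (β0 _) (by positivity)
        _ = 3 / 2 * A ^ 2 * (1 / 2) ^ n * (2 ^ J * (1 / 2) ^ J) := by ring
        _ = _ := by rw [hPi, mul_one]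
    · refine (norm_sum_le _ _).trans ?_
      have hc := geo_both (fun m => min ((1 / 2 : ℝ) ^ n * 2 ^ m) (2 ^ n * (1 / 2 : ℝ) ^ m)) n K hn
        (fun m => min_le_left _ _) (fun m => min_le_right _ _)
      calc ∑ m ∈ Finset.range K, ‖g (D n) (D m)‖
          ≤ ∑ m ∈ Finset.range K, 9 / 2 * A ^ 2 *
            min ((1 / 2 : ℝ) ^ n * 2 ^ m) (2 ^ n * (1 / 2 : ℝ) ^ m) := by
            refine Finset.sum_le_sum fun m _ => ?_
            rw [mul_min_of_nonneg _ _ (by positivity)]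
            refine le_min ?_ ?_
            · calc _ ≤ α (D n) * β (D m) := gab _ _
                _ ≤ (3 / 2 * A * (2 ^ J * (1 / 2) ^ n)) * (3 * A * ((1 / 2) ^ J * 2 ^ m)) :=
                  mul_le_mul (hDα n) (hDβ m) (β0 _) (by positivity)
                _ = 9 / 2 * A ^ 2 * ((1 / 2) ^ n * 2 ^ m) * (2 ^ J * (1 / 2) ^ J) := by ring
                _ = _ := by rw [hPi, mul_one]
            · calc _ ≤ β (D n) * α (D m) := gba _ _
                _ ≤ (3 * A * ((1 / 2) ^ J * 2 ^ n)) * (3 / 2 * A * (2 ^ J * (1 / 2) ^ m)) :=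
                  mul_le_mul (hDβ n) (hDα m) (α0 _) (by positivity)
                _ = 9 / 2 * A ^ 2 * (2 ^ n * (1 / 2) ^ m) * (2 ^ J * (1 / 2) ^ J) := by ring
                _ = _ := by rw [hPi, mul_one]
        _ ≤ 9 / 2 * A ^ 2 * 3 := by
            rw [← Finset.mul_sum]
            exact mul_le_mul_of_nonneg_left hc (by positivity)
        _ = _ := by ring
    · calc _ ≤ β (D n) * α (b K) := gba _ _
        _ ≤ (3 * A * ((1 / 2) ^ J * 2 ^ n)) * (A * (1 / 2) ^ J) :=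
          mul_le_mul (hDβ n) hbK (α0 _) (by positivity)
        _ = _ := by rw [hK, two_mul, pow_add]; ring
  have etot : g w w = g (w - b 0) w + ∑ n ∈ Finset.range K, g (D n) w + g (b K) w := by
    have h1 := congrArg (fun x => g x w) hsum
    rw [h1, gadd1, gadd1, gl]
  rw [etot]
  have s1 : ‖g (w - b 0) w‖ ≤ A * (1 / 2) ^ J * B :=
    (gba _ _).trans (mul_le_mul hb0 αw (α0 _) (by positivity))
  have s3 : ‖g (b K) w‖ ≤ A * (1 / 2) ^ J * B :=
    (gab _ _).trans (mul_le_mul hbK βw (β0 _) (by positivity))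
  have s2 : ‖∑ n ∈ Finset.range K, g (D n) w‖ ≤ (6 + 27 * J) * A ^ 2 := by
    refine (norm_sum_le _ _).trans ?_
    refine (Finset.sum_le_sum fun n hn => row n (Finset.mem_range.1 hn)).trans ?_
    rw [Finset.sum_add_distrib, Finset.sum_add_distrib, ← Finset.mul_sum,
      ← Finset.mul_sum (f := fun x => (1 / 2 : ℝ) ^ K * 2 ^ x),
      Finset.sum_const, Finset.card_range, nsmul_eq_mul]
    have t1 := geo_half K
    have t2 := geo_two K
    have t3 : ((K : ℕ) : ℝ) = 2 * J := by rw [hK]; push_cast; ring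
    rw [t3]
    nlinarith [mul_le_mul_of_nonneg_left t1 hA2, mul_le_mul_of_nonneg_left t2 hA2]
  have hz : (2 : ℝ) ^ (-(J : ℤ)) = (1 / 2) ^ J := by
    rw [zpow_neg, zpow_natCast, one_div, inv_pow]
  rw [hz]
  calc _ ≤ ‖g (w - b 0) w‖ + ‖∑ n ∈ Finset.range K, g (D n) w‖ + ‖g (b K) w‖ := norm_add₃_le
    _ ≤ A * (1 / 2) ^ J * B + (6 + 27 * J) * A ^ 2 + A * (1 / 2) ^ J * B := by gcongr
    _ = _ := by ring

end Pool.Agent.H339R2.BPx
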