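import Pool.Agent.H917R2.BP.Stm

/-! Task pf of project BP: a super-harmonic positive matrix. -/

set_option autoImplicit false

open scoped ComplexOrder InnerProductSpace ComplexConjugate Topology Matrix
open Filter

namespace Pool.Agent.H339R2.BPx

open H917R2.BP

section pf

variable {d : ℕ} {ι : Type} [Fintype ι]

/-- `Φ(h)` -/
noncomputable def Ph (V : ι → Matrix (Fin d) (Fin d) ℂ) (h : Matrix (Fin d) (Fin d) ℂ) :
    Matrix (Fin d) (Fin d) ℂ := ∑ i, V i * h * (V i).conjTranspose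

/-- Frobenius norm squared -/
noncomputable def F2 (h : Matrix (Fin d) (Fin d) ℂ) : ℝ := ∑ p, ∑ q, ‖h p q‖ ^ 2

theorem F2_nonneg (h : Matrix (Fin d) (Fin d) ℂ) : 0 ≤ F2 h := by
  unfold F2; positivity

theorem Ph_add (V : ι → Matrix (Fin d) (Fin d) ℂ) (h k : Matrix (Fin d) (Fin d) ℂ) :
    Ph V (h + k) = Ph V h + Ph V k := by
  simp [Ph, Matrix.mul_add, Matrix.add_mul, Finset.sum_add_distrib]

theorem Ph_smul (V : ι → Matrix (Fin d) (Fin d) ℂ) (c : ℂ) (h : Matrix (Fin d) (Fin d) ℂ) :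
    Ph V (c • h) = c • Ph V h := by
  simp [Ph, Finset.smul_sum]

theorem Ph_zero (V : ι → Matrix (Fin d) (Fin d) ℂ) : Ph V 0 = 0 := by
  simp [Ph]

theorem Ph_sub (V : ι → Matrix (Fin d) (Fin d) ℂ) (h k : Matrix (Fin d) (Fin d) ℂ) :
    Ph V (h - k) = Ph V h - Ph V k := by
  simp [Ph, Matrix.mul_sub, Matrix.sub_mul, Finset.sum_sub_distrib]

theorem Ph_psd (V : ι → Matrix (Fin d) (Fin d) ℂ) {h : Matrix (Fin d) (Fin d) ℂ}
    (hh : h.PosSemidef) : (Ph V h).PosSemidef :=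
  Matrix.posSemidef_sum _ fun i _ => hh.mul_mul_conjTranspose_same (V i)

/-- partial sums of the Neumann series, multiplied by a power of `S` -/
noncomputable def an (V : ι → Matrix (Fin d) (Fin d) ℂ) (S : ℝ) : ℕ → Matrix (Fin d) (Fin d) ℂ
  | 0 => 0
  | n + 1 => ((S : ℂ) ^ n) • (1 : Matrix (Fin d) (Fin d) ℂ) + Ph V (an V S n)

theorem pow_nn {S : ℝ} (hS : 0 ≤ S) (n : ℕ) : (0 : ℂ) ≤ (S : ℂ) ^ n := by
  have : (0 : ℝ) ≤ S ^ n := pow_nonneg hS n
  exact_mod_cast this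

theorem an_psd (V : ι → Matrix (Fin d) (Fin d) ℂ) {S : ℝ} (hS : 0 ≤ S) (n : ℕ) :
    (an V S n).PosSemidef := by
  induction n with
  | zero => exact Matrix.PosSemidef.zero
  | succ n ih => exact (Matrix.PosSemidef.one.smul (pow_nn hS n)).add (Ph_psd V ih)

theorem an_key (V : ι → Matrix (Fin d) (Fin d) ℂ) (S : ℝ) (n : ℕ) :
    (S : ℂ) • an V S n - Ph V (an V S n)
      = ((S : ℂ) ^ n) • (1 : Matrix (Fin d) (Fin d) ℂ) - (Ph V)^[n] 1 := by
  induction n with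
  | zero => simp [an, Ph_zero]
  | succ n ih =>
    have h1 : (Ph V)^[n + 1] 1 = Ph V ((Ph V)^[n] 1) := Function.iterate_succ_apply' _ _ _
    have h2 : (Ph V)^[n] 1 = ((S : ℂ) ^ n) • (1 : Matrix (Fin d) (Fin d) ℂ)
        - ((S : ℂ) • an V S n - Ph V (an V S n)) := by rw [ih]; abel
    rw [h1, h2, an]
    simp only [Ph_add, Ph_sub, Ph_smul, smul_add, smul_smul, pow_succ']
    abel

theorem F2_iter (V : ι → Matrix (Fin d) (Fin d) ℂ) (S0 : ℝ)
    (h : ∀ h : Matrix (Fin d) (Fin d) ℂ, F2 (Ph V h) ≤ S0 ^ 2 * F2 h) (n : ℕ) :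
    F2 ((Ph V)^[n] 1) ≤ (S0 ^ n) ^ 2 * F2 (1 : Matrix (Fin d) (Fin d) ℂ) := by
  induction n with
  | zero => simp
  | succ n ih =>
    rw [Function.iterate_succ_apply']
    calc _ ≤ S0 ^ 2 * F2 ((Ph V)^[n] 1) := h _
      _ ≤ S0 ^ 2 * ((S0 ^ n) ^ 2 * F2 (1 : Matrix (Fin d) (Fin d) ℂ)) :=
        mul_le_mul_of_nonneg_left ih (sq_nonneg _)
      _ = _ := by ring

theorem psd_sub {c : ℝ} (hc : 0 ≤ c) {E : Matrix (Fin d) (Fin d) ℂ} (hE : E.PosSemidef)
    (h : F2 E ≤ c ^ 2) : ((c : ℂ) • (1 : Matrix (Fin d) (Fin d) ℂ) - E).PosSemidef := by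
  have hherm : ((c : ℂ) • (1 : Matrix (Fin d) (Fin d) ℂ) - E).IsHermitian := by
    refine Matrix.IsHermitian.sub ?_ hE.isHermitian
    have : (0 : ℂ) ≤ (c : ℂ) := by exact_mod_cast hc
    exact (Matrix.PosSemidef.one.smul this).isHermitian
  refine Matrix.PosSemidef.of_dotProduct_mulVec_nonneg hherm fun x => ?_
  have hre : 0 ≤ (star x ⬝ᵥ (((c : ℂ) • (1 : Matrix (Fin d) (Fin d) ℂ) - E) *ᵥ x)).re := by
    have e1 : star x ⬝ᵥ (((c : ℂ) • (1 : Matrix (Fin d) (Fin d) ℂ) - E) *ᵥ x)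
        = ((c * ∑ p, ‖x p‖ ^ 2 : ℝ) : ℂ) - ∑ p, ∑ q, star (x p) * (E p q * x q) := by
      rw [Matrix.sub_mulVec, dotProduct_sub, Matrix.smul_mulVec, Matrix.one_mulVec]
      congr 1
      · simp only [dotProduct, Pi.star_apply, Pi.smul_apply, smul_eq_mul]
        push_cast
        rw [Finset.mul_sum]
        refine Finset.sum_congr rfl fun p _ => ?_
        have : star (x p) * x p = ((‖x p‖ ^ 2 : ℝ) : ℂ) := by
          rw [mul_comm]
          simpa using Complex.mul_conj' (x p)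
        push_cast at this
        rw [← this]
        ring
      · simp only [dotProduct, Pi.star_apply, Matrix.mulVec]
        refine Finset.sum_congr rfl fun p _ => ?_
        rw [Finset.mul_sum]
    rw [e1, Complex.sub_re, Complex.ofReal_re]
    have e2 : (∑ p, ∑ q, star (x p) * (E p q * x q)).re ≤ c * ∑ p, ‖x p‖ ^ 2 := by
      refine (Complex.re_le_norm _).trans ?_
      have e3 : ‖∑ p, ∑ q, star (x p) * (E p q * x q)‖
          ≤ ∑ z : Fin d × Fin d, ‖E z.1 z.2‖ * (‖x z.1‖ * ‖x z.2‖) := by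
        rw [← Finset.sum_product', Finset.univ_product_univ]
        refine (norm_sum_le _ _).trans (Finset.sum_le_sum fun z _ => ?_)
        rw [norm_mul, norm_mul, norm_star]
        apply le_of_eq
        ring
      refine e3.trans ?_
      have e4 := Finset.sum_mul_sq_le_sq_mul_sq (Finset.univ : Finset (Fin d × Fin d))
        (fun z => ‖E z.1 z.2‖) (fun z => ‖x z.1‖ * ‖x z.2‖)
      have e5 : ∑ z : Fin d × Fin d, ‖E z.1 z.2‖ ^ 2 = F2 E := by
        rw [F2, ← Finset.sum_product', Finset.univ_product_univ]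
      have e6 : ∑ z : Fin d × Fin d, (‖x z.1‖ * ‖x z.2‖) ^ 2 = (∑ p, ‖x p‖ ^ 2) ^ 2 := by
        rw [sq (∑ p, ‖x p‖ ^ 2), Finset.sum_mul_sum, ← Finset.sum_product',
          Finset.univ_product_univ]
        refine Finset.sum_congr rfl fun z _ => by ring
      rw [e5, e6] at e4
      have hX : 0 ≤ ∑ p, ‖x p‖ ^ 2 := by positivity
      refine abs_le_of_sq_le_sq' ?_ (by positivity) |>.2
      calc _ ≤ F2 E * (∑ p, ‖x p‖ ^ 2) ^ 2 := e4
        _ ≤ c ^ 2 * (∑ p, ‖x p‖ ^ 2) ^ 2 := mul_le_mul_of_nonneg_right h (sq_nonneg _)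
        _ = _ := by ring
    linarith
  have him : (star x ⬝ᵥ (((c : ℂ) • (1 : Matrix (Fin d) (Fin d) ℂ) - E) *ᵥ x)).im = 0 := by
    have := hherm.im_star_dotProduct_mulVec_self x
    simpa using this
  exact Complex.nonneg_iff.2 ⟨hre, him.symm⟩

end pf

theorem t_pf : H917R2.BP.S_pf := by
  intro d ι _ V S0 S hS0 hlt hb
  have hS : 0 < S := lt_of_le_of_lt hS0 hlt
  have hb' : ∀ h : Matrix (Fin d) (Fin d) ℂ, F2 (Ph V h) ≤ S0 ^ 2 * F2 h := hb
  set D := F2 (1 : Matrix (Fin d) (Fin d) ℂ) with hD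
  have hD0 : 0 ≤ D := F2_nonneg _
  -- choose `n`
  obtain ⟨n, hn⟩ : ∃ n : ℕ, (S0 ^ (n + 1)) ^ 2 * D ≤ (S ^ (n + 1)) ^ 2 := by
    have hq : S0 / S < 1 := (div_lt_one hS).2 hlt
    have hq0 : 0 ≤ S0 / S := by positivity
    have hq2 : (S0 / S) ^ 2 < 1 := by nlinarith
    obtain ⟨n, hn⟩ := exists_pow_lt_of_lt_one (show (0 : ℝ) < 1 / (D + 1) by positivity) hq2
    refine ⟨n, ?_⟩
    have h1 : ((S0 / S) ^ 2) ^ (n + 1) ≤ 1 / (D + 1) := by
      rw [pow_succ]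
      have : ((S0 / S) ^ 2) ^ n * (S0 / S) ^ 2 ≤ ((S0 / S) ^ 2) ^ n * 1 :=
        mul_le_mul_of_nonneg_left hq2.le (by positivity)
      linarith
    have h2 : ((S0 / S) ^ 2) ^ (n + 1) * D ≤ 1 := by
      calc _ ≤ 1 / (D + 1) * D := mul_le_mul_of_nonneg_right h1 hD0
        _ ≤ 1 := by
          rw [div_mul_eq_mul_div, one_mul, div_le_one (by positivity)]
          linarith
    have h3 : (S0 ^ (n + 1)) ^ 2 * D = (((S0 / S) ^ 2) ^ (n + 1) * D) * (S ^ (n + 1)) ^ 2 := by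
      have h4 : S0 ^ (n + 1) = (S0 / S) ^ (n + 1) * S ^ (n + 1) := by
        rw [← mul_pow, div_mul_cancel₀ _ hS.ne']
      rw [h4]
      ring
    rw [h3]
    nlinarith [sq_nonneg (S ^ (n + 1))]
  refine ⟨an V S (n + 1), ?_, ?_⟩
  · have h1 : (an V S (n + 1)) = ((S : ℂ) ^ n) • (1 : Matrix (Fin d) (Fin d) ℂ)
        + Ph V (an V S n) := rfl
    rw [h1]
    refine Matrix.PosDef.add_posSemidef ?_ (Ph_psd V (an_psd V hS.le n))
    refine Matrix.PosDef.smul Matrix.PosDef.one ?_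
    have : (0 : ℝ) < S ^ n := pow_pos hS n
    exact_mod_cast this
  · have h2 := an_key V S (n + 1)
    have h3 : (S : ℂ) • an V S (n + 1) - ∑ i, V i * an V S (n + 1) * (V i).conjTranspose
        = ((S ^ (n + 1) : ℝ) : ℂ) • (1 : Matrix (Fin d) (Fin d) ℂ) - (Ph V)^[n + 1] 1 := by
      push_cast
      exact h2
    rw [h3]
    refine psd_sub (by positivity) ?_ ((F2_iter V S0 hb' (n + 1)).trans hn)
    have : ∀ m, ((Ph V)^[m] (1 : Matrix (Fin d) (Fin d) ℂ)).PosSemidef := by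
      intro m
      induction m with
      | zero => exact Matrix.PosSemidef.one
      | succ m ih => rw [Function.iterate_succ_apply']; exact Ph_psd V ih
    exact this _

end Pool.Agent.H339R2.BPx
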